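import Pool.Agent.Lib.MP_7bc51d_an_cross.Comp
import Pool.Agent.Lib.MP_7bc51d_an.Uniform
import Pool.Agent.Lib.MP_7bc51d_an.Line

set_option autoImplicit false

/-!
Mixed areas of the Minkowski summands of two invariant sets as angular crossing integrals.
-/

namespace Pool.Agent.Lib.BilX

open Complex MeasureTheory Set Filter
open scoped ComplexConjugate Topology ENNReal Real
open Pool.Agent.Lib.Bil

variable {n : ℕ} {v : Fin n → ℂ}

/-- Scale invariance. -/
def Cone (A : Set (ℂ × ℂ)) : Prop :=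
  ∀ x w : ℂ, ∀ c : ℝ, 0 < c → ((x, w) ∈ A ↔ (x, (c : ℂ) * w) ∈ A)

/-- Indicator of the directions at `x`. -/
noncomputable def dI (A : Set (ℂ × ℂ)) (x : ℂ) (θ : ℝ) : ℝ := A.indicator 1 (x, ut θ)

theorem meas_ut : Measurable ut := by
  unfold ut
  apply Continuous.measurable
  fun_prop

theorem dI_meas {A : Set (ℂ × ℂ)} (hA : MeasurableSet A) (x : ℂ) : Measurable (dI A x) := by
  unfold dI
  exact (measurable_one.indicator hA).comp (measurable_const.prodMk meas_ut)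

theorem dI_nonneg (A : Set (ℂ × ℂ)) (x : ℂ) (θ : ℝ) : 0 ≤ dI A x θ :=
  indicator_nonneg (fun _ _ => zero_le_one) _

theorem dI_le (A : Set (ℂ × ℂ)) (x : ℂ) (θ : ℝ) : dI A x θ ≤ 1 :=
  indicator_le_self' (fun _ _ => zero_le_one) _

theorem dI_abs (A : Set (ℂ × ℂ)) (x : ℂ) (θ : ℝ) : |dI A x θ| ≤ 1 := by
  rw [abs_of_nonneg (dI_nonneg A x θ)]; exact dI_le A x θ

theorem intOn_I {g : ℝ → ℝ} (hg : Measurable g) {C : ℝ} (hb : ∀ x, |g x| ≤ C) :
    IntegrableOn g (Ioo (-π) π) := by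
  have h1 : IntegrableOn (fun _ : ℝ => C) (Ioo (-π) π) :=
    integrableOn_const (measure_Ioo_lt_top.ne)
  exact Integrable.mono' h1 hg.aestronglyMeasurable
    (Eventually.of_forall (fun x => by rw [Real.norm_eq_abs]; exact hb x))

theorem ms_ang {A : Set (ℂ × ℂ)} (hA : MeasurableSet A) (hc : Cone A) (x : ℂ) :
    ms A p20 x = (1 / 4) * ∫ θ in Ioo (-π) π, dI A x θ * Real.cos θ ^ 2 ∧
    ms A p02 x = (1 / 4) * ∫ θ in Ioo (-π) π, dI A x θ * Real.sin θ ^ 2 ∧
    ms A p11 x = (1 / 4) * ∫ θ in Ioo (-π) π, dI A x θ * (Real.cos θ * Real.sin θ) := by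
  have hcx : ∀ w : ℂ, ∀ c : ℝ, 0 < c → (w ∈ sl A x ↔ (c : ℂ) * w ∈ sl A x) :=
    fun w c h => hc x w c h
  have hI : ∀ θ, (sl A x).indicator (1 : ℂ → ℝ) (ut θ) = dI A x θ := fun θ => rfl
  refine ⟨?_, ?_, ?_⟩
  · rw [ms_eq hA, polar_hom 2 (g := fun w => (sl A x).indicator 1 w * p20 w) (fun r hr w => by
      rw [hom_ind hcx hr]; simp only [p20, mul_re, ofReal_re, ofReal_im]; ring)]
    simp only [hI, p20, ut_re]
    norm_num
  · rw [ms_eq hA, polar_hom 2 (g := fun w => (sl A x).indicator 1 w * p02 w) (fun r hr w => by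
      rw [hom_ind hcx hr]; simp only [p02, mul_im, ofReal_re, ofReal_im]; ring)]
    simp only [hI, p02, ut_im]
    norm_num
  · rw [ms_eq hA, polar_hom 2 (g := fun w => (sl A x).indicator 1 w * p11 w) (fun r hr w => by
      rw [hom_ind hcx hr]; simp only [p11, mul_re, mul_im, ofReal_re, ofReal_im]; ring)]
    simp only [hI, p11, ut_im, ut_re]
    norm_num

theorem dbl {f g : ℝ → ℝ} (hf : Measurable f) (hg : Measurable g) (hfb : ∀ θ, |f θ| ≤ 1)
    (hgb : ∀ θ, |g θ| ≤ 1) :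
    ∫ θ in Ioo (-π) π, ∫ θ' in Ioo (-π) π, f θ * g θ' * Real.sin (θ - θ') ^ 2 =
      (∫ θ in Ioo (-π) π, f θ * Real.sin θ ^ 2) * (∫ θ in Ioo (-π) π, g θ * Real.cos θ ^ 2) -
      2 * ((∫ θ in Ioo (-π) π, f θ * (Real.cos θ * Real.sin θ)) *
        (∫ θ in Ioo (-π) π, g θ * (Real.cos θ * Real.sin θ))) +
      (∫ θ in Ioo (-π) π, f θ * Real.cos θ ^ 2) * (∫ θ in Ioo (-π) π, g θ * Real.sin θ ^ 2) := by
  have hb : ∀ {h : ℝ → ℝ} (_ : Measurable h) (_ : ∀ θ, |h θ| ≤ 1),
      IntegrableOn (fun θ => h θ * Real.sin θ ^ 2) (Ioo (-π) π) ∧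
      IntegrableOn (fun θ => h θ * Real.cos θ ^ 2) (Ioo (-π) π) ∧
      IntegrableOn (fun θ => h θ * (Real.cos θ * Real.sin θ)) (Ioo (-π) π) := by
    intro h hh hhb
    refine ⟨?_, ?_, ?_⟩
    · refine intOn_I (hh.mul ((Real.measurable_sin).pow_const 2)) (C := 1) (fun θ => ?_)
      rw [abs_mul, abs_pow]
      have h1 := hhb θ
      have h2 := Real.abs_sin_le_one θ
      have h3 : |Real.sin θ| ^ 2 ≤ 1 := pow_le_one₀ (abs_nonneg _) h2
      calc |h θ| * |Real.sin θ| ^ 2 ≤ 1 * 1 := by gcongr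
        _ = 1 := one_mul _
    · refine intOn_I (hh.mul ((Real.measurable_cos).pow_const 2)) (C := 1) (fun θ => ?_)
      rw [abs_mul, abs_pow]
      have h1 := hhb θ
      have h2 := Real.abs_cos_le_one θ
      have h3 : |Real.cos θ| ^ 2 ≤ 1 := pow_le_one₀ (abs_nonneg _) h2
      calc |h θ| * |Real.cos θ| ^ 2 ≤ 1 * 1 := by gcongr
        _ = 1 := one_mul _
    · refine intOn_I (hh.mul (Real.measurable_cos.mul Real.measurable_sin)) (C := 1) (fun θ => ?_)
      rw [abs_mul, abs_mul]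
      have h1 := hhb θ
      have h2 := Real.abs_cos_le_one θ
      have h3 := Real.abs_sin_le_one θ
      calc |h θ| * (|Real.cos θ| * |Real.sin θ|) ≤ 1 * (1 * 1) := by gcongr
        _ = 1 := by norm_num
  obtain ⟨f1, f2, f3⟩ := hb hf hfb
  obtain ⟨g1, g2, g3⟩ := hb hg hgb
  have inner : ∀ θ, ∫ θ' in Ioo (-π) π, f θ * g θ' * Real.sin (θ - θ') ^ 2 =
      (f θ * Real.sin θ ^ 2) * (∫ θ in Ioo (-π) π, g θ * Real.cos θ ^ 2) -
      2 * ((f θ * (Real.cos θ * Real.sin θ)) *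
        (∫ θ in Ioo (-π) π, g θ * (Real.cos θ * Real.sin θ))) +
      (f θ * Real.cos θ ^ 2) * (∫ θ in Ioo (-π) π, g θ * Real.sin θ ^ 2) := by
    intro θ
    have e1 : ∀ θ', f θ * g θ' * Real.sin (θ - θ') ^ 2 =
        (f θ * Real.sin θ ^ 2) * (g θ' * Real.cos θ' ^ 2) -
        (2 * (f θ * (Real.cos θ * Real.sin θ))) * (g θ' * (Real.cos θ' * Real.sin θ')) +
        (f θ * Real.cos θ ^ 2) * (g θ' * Real.sin θ' ^ 2) := by
      intro θ'
      rw [Real.sin_sub]; ring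
    simp_rw [e1]
    rw [integral_add, integral_sub, integral_const_mul, integral_const_mul,
      integral_const_mul]
    · ring
    · exact g2.const_mul _
    · exact g3.const_mul _
    · exact (g2.const_mul _).sub (g3.const_mul _)
    · exact g1.const_mul _
  simp_rw [inner]
  rw [integral_add, integral_sub, integral_mul_const, integral_mul_const, integral_const_mul,
    integral_mul_const]
  · exact f1.mul_const _
  · exact (f3.mul_const _).const_mul _
  · exact (f1.mul_const _).sub ((f3.mul_const _).const_mul _)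
  · exact f2.mul_const _

/-- The crossing integrand. -/
noncomputable def cro (A B : Set (ℂ × ℂ)) (x : ℂ) : ℝ :=
  ∫ θ in Ioo (-π) π, ∫ θ' in Ioo (-π) π, dI A x θ * dI B x θ' * Real.sin (θ - θ') ^ 2

theorem cro_ms {A B : Set (ℂ × ℂ)} (hA : MeasurableSet A) (hB : MeasurableSet B) (hcA : Cone A)
    (hcB : Cone B) (x : ℂ) :
    cro A B x = 16 * (ms A p02 x * ms B p20 x - 2 * (ms A p11 x * ms B p11 x) +
      ms A p20 x * ms B p02 x) := by
  obtain ⟨a1, a2, a3⟩ := ms_ang hA hcA x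
  obtain ⟨b1, b2, b3⟩ := ms_ang hB hcB x
  unfold cro
  rw [dbl (dI_meas hA x) (dI_meas hB x) (dI_abs A x) (dI_abs B x), a1, a2, a3, b1, b2, b3]
  ring

theorem XX_sets {A B : Set (ℂ × ℂ)} (hA : MeasurableSet A) (hB : MeasurableSet B) (hcA : Cone A)
    (hcB : Cone B) (hchA : ∀ᵐ w, ChordAt v A w) (hchB : ∀ᵐ w, ChordAt v B w) :
    XX v (FA v A) (FA v B) = (1 / 16) * ∫ x in PP v, cro A B x := by
  rw [XX_moments (LF_FA hA) (LF_FA hB), ← integral_const_mul]
  apply setIntegral_congr_ae isOpen_PP.measurableSet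
  filter_upwards [mo_ms hA hchA, mo_ms hB hchB] with x h1 h2 hx
  rw [cro_ms hA hB hcA hcB, h1 hx, h1 hx, h1 hx, h2 hx, h2 hx, h2 hx]
  ring

/-- The vertices of the Minkowski summand of an invariant set. -/
noncomputable def uS (v : Fin n → ℂ) (A : Set (ℂ × ℂ)) (i : Fin n) : ℂ := Pt (FA v A) (v i)

/-- The side ratios of the Minkowski summand of an invariant set. -/
noncomputable def mS (hn : 3 ≤ n) (hv : ConvexIndependent ℝ v) (A : Set (ℂ × ℂ)) (i : Fin n) : ℝ :=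
  mu (FA v A) (v i) (eg hn hv i)

theorem symS (hn : 3 ≤ n) (hv : ConvexIndependent ℝ v) {A : Set (ℂ × ℂ)} (hI : Inv v A)
    (hch : ∀ᵐ w, ChordAt v A w) (i : Fin n) :
    SymAt (FA v A) (v i) (v (nxt hn hv i) - v i) :=
  symAt_FA hn hv hI hch (nxt_side hn hv i)

theorem par_set (hn : 3 ≤ n) (hv : ConvexIndependent ℝ v) {A : Set (ℂ × ℂ)} (hA : MeasurableSet A)
    (hI : Inv v A) (hch : ∀ᵐ w, ChordAt v A w) : Par hn hv (uS v A) (mS hn hv A) := by
  intro i
  have := Pt_side (LF_FA (v := v) hA) (eg_ne hn hv i) (symS hn hv hI hch i)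
  unfold eg at this
  rw [add_sub_cancel] at this
  exact this

theorem mS_nonneg (hn : 3 ≤ n) (hv : ConvexIndependent ℝ v) (A : Set (ℂ × ℂ)) (i : Fin n) :
    0 ≤ mS hn hv A i := by
  unfold mS mu
  refine div_nonneg (integral_nonneg (fun w => ?_)) (by positivity)
  refine mul_nonneg ?_ (sq_nonneg _)
  unfold Sm
  refine intervalIntegral.integral_nonneg zero_le_one (fun τ _ => ?_)
  rcases FA_zero_or_one (v := v) A w (cr w (v i + (τ : ℂ) * eg hn hv i)) with h | h
  · rw [h]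
  · rw [h]; exact zero_le_one

theorem BB_sets (hn : 3 ≤ n) (hv : ConvexIndependent ℝ v) {A B : Set (ℂ × ℂ)}
    (hA : MeasurableSet A) (hB : MeasurableSet B) (hcA : Cone A) (hcB : Cone B) (hIA : Inv v A)
    (hIB : Inv v B) (hchA : ∀ᵐ w, ChordAt v A w) (hchB : ∀ᵐ w, ChordAt v B w) :
    BB hn hv (uS v B) (uS v A) = (1 / 16) * ∫ x in PP v, cro A B x := by
  rw [← XX_sets hA hB hcA hcB hchA hchB,
    pairing hn hv (LF_FA hA) (LF_FA hB) (symS hn hv hIA hchA) (symS hn hv hIB hchB)]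
  rfl

theorem cro_comm {A B : Set (ℂ × ℂ)} (hA : MeasurableSet A) (hB : MeasurableSet B) (hcA : Cone A)
    (hcB : Cone B) (x : ℂ) : cro A B x = cro B A x := by
  rw [cro_ms hA hB hcA hcB, cro_ms hB hA hcB hcA]; ring

theorem cro_nonneg (A B : Set (ℂ × ℂ)) (x : ℂ) : 0 ≤ cro A B x := by
  unfold cro
  refine integral_nonneg (fun θ => integral_nonneg (fun θ' => ?_))
  exact mul_nonneg (mul_nonneg (dI_nonneg A x θ) (dI_nonneg B x θ')) (sq_nonneg _)

theorem BB_vv (hn : 3 ≤ n) (hv : ConvexIndependent ℝ v) :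
    BB hn hv v v = 2 * (volume (PP v)).toReal := by
  have ho : ∀ i, SymAt one1 (v i) (v (nxt hn hv i) - v i) := fun i => sym_one _ _
  have x11 := pairing hn hv LF_one LF_one ho ho
  rw [XX_moments LF_one LF_one] at x11
  have e11 : ∫ x in PP v, (mo one1 p02 x * mo one1 p20 x - 2 * (mo one1 p11 x * mo one1 p11 x) +
      mo one1 p20 x * mo one1 p02 x) = 2 * MM ^ 2 * (volume (PP v)).toReal := by
    simp only [mo_one, int_p11, int_p02_eq]
    rw [setIntegral_const, smul_eq_mul, Measure.real]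
    unfold MM
    ring
  have hPt : ∀ i, Pt one1 (v i) = (MM : ℂ) * v i := fun i => Pt_one _
  have s11 : ∑ i, cr (Pt one1 (v i)) (Pt one1 (v (nxt hn hv i)) - Pt one1 (v i)) =
      MM ^ 2 * BB hn hv v v := by
    unfold BB
    rw [Finset.mul_sum]
    apply Finset.sum_congr rfl
    intro i _
    rw [hPt, hPt, ← mul_sub, cr_smul_left, cr_smul_right]
    ring
  rw [e11, s11] at x11
  have hM2 : MM ^ 2 ≠ 0 := pow_ne_zero 2 MM_ne
  have : MM ^ 2 * (BB hn hv v v - 2 * (volume (PP v)).toReal) = 0 := by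
    rw [mul_sub, ← x11]; ring
  have := (mul_eq_zero.1 this).resolve_left hM2
  linarith

theorem BB_v_set (hn : 3 ≤ n) (hv : ConvexIndependent ℝ v) {A : Set (ℂ × ℂ)}
    (hA : MeasurableSet A) (hcA : Cone A) (hIA : Inv v A) (hchA : ∀ᵐ w, ChordAt v A w) :
    BB hn hv v (uS v A) = π / 2 * ∫ x in PP v, frac A x := by
  have ho : ∀ i, SymAt one1 (v i) (v (nxt hn hv i) - v i) := fun i => sym_one _ _
  have hF := LF_FA (v := v) hA
  have xF1 := pairing hn hv hF LF_one (symS hn hv hIA hchA) ho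
  rw [XX_moments hF LF_one] at xF1
  have eF1 : ∫ x in PP v, (mo (FA v A) p02 x * mo one1 p20 x -
      2 * (mo (FA v A) p11 x * mo one1 p11 x) + mo (FA v A) p20 x * mo one1 p02 x) =
        MM * ∫ x in PP v, (mo (FA v A) p20 x + mo (FA v A) p02 x) := by
    rw [← integral_const_mul]
    apply integral_congr_ae
    refine Eventually.of_forall (fun x => ?_)
    simp only [mo_one, int_p11, int_p02_eq]
    unfold MM
    ring
  have hPt : ∀ i, Pt one1 (v i) = (MM : ℂ) * v i := fun i => Pt_one _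
  have sF1 : ∑ i, cr (Pt one1 (v i)) (Pt (FA v A) (v (nxt hn hv i)) - Pt (FA v A) (v i)) =
      MM * BB hn hv v (uS v A) := by
    unfold BB
    rw [Finset.mul_sum]
    apply Finset.sum_congr rfl
    intro i _
    rw [hPt, cr_smul_left]
    rfl
  rw [eF1, sF1] at xF1
  have h5 := mul_left_cancel₀ MM_ne xF1
  rw [← h5]
  have h2 : ∫ x in PP v, (mo (FA v A) p20 x + mo (FA v A) p02 x) =
      ∫ x in PP v, (ms A p20 x + ms A p02 x) := by
    apply setIntegral_congr_ae isOpen_PP.measurableSet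
    filter_upwards [mo_ms hA hchA] with x hx hxP
    rw [hx hxP, hx hxP]
  rw [h2, ← integral_const_mul]
  apply integral_congr_ae
  refine Eventually.of_forall (fun x => ?_)
  simp only
  have hmom := cone_moments (measurableSet_sl hA x) (fun w c hc => hcA x w c hc)
    (α := frac A x) rfl
  rw [ms_eq hA, ms_eq hA, hmom.1]
  ring

end Pool.Agent.Lib.BilX
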