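import Pool.Agent.Lib.MP_7bc51d_an_cross.Geo
import Pool.Agent.Lib.MP_7bc51d_an_smooth.Cycle

set_option autoImplicit false

/-!
Comparison of mixed areas with the total side length.
-/

namespace Pool.Agent.Lib.BilX

open Complex MeasureTheory Set Filter
open scoped ComplexConjugate Topology ENNReal
open Pool.Agent.Lib.Bil

variable {n : ℕ} {v : Fin n → ℂ}

/-- Perimeter. -/
noncomputable def per (hn : 3 ≤ n) (hv : ConvexIndependent ℝ v) (μ : Fin n → ℝ) : ℝ :=
  ∑ i, μ i * ‖eg hn hv i‖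

theorem per_nonneg (hn : 3 ≤ n) (hv : ConvexIndependent ℝ v) {μ : Fin n → ℝ}
    (hμ : ∀ i, 0 ≤ μ i) : 0 ≤ per hn hv μ :=
  Finset.sum_nonneg (fun i _ => mul_nonneg (hμ i) (norm_nonneg _))

theorem le_per (hn : 3 ≤ n) (hv : ConvexIndependent ℝ v) {μ : Fin n → ℝ}
    (hμ : ∀ i, 0 ≤ μ i) (i : Fin n) : μ i * ‖eg hn hv i‖ ≤ per hn hv μ :=
  Finset.single_le_sum (f := fun i => μ i * ‖eg hn hv i‖)
    (fun j _ => mul_nonneg (hμ j) (norm_nonneg _)) (Finset.mem_univ i)

/-- Mixed areas are bounded by the product of the perimeters. -/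
theorem BB_upper (hn : 3 ≤ n) (hv : ConvexIndependent ℝ v) :
    ∃ C : ℝ, 0 ≤ C ∧ ∀ (u u' : Fin n → ℂ) (μ μ' : Fin n → ℝ), Par hn hv u μ → Par hn hv u' μ' →
      (∀ i, 0 ≤ μ i) → (∀ i, 0 ≤ μ' i) →
      |BB hn hv u u'| ≤ C * (per hn hv μ * per hn hv μ') := by
  have i0 : Fin n := ⟨0, by omega⟩
  obtain ⟨C, hC, hb⟩ := Lib.BilS.all_bound hn hv i0
  refine ⟨C, hC, fun u u' μ μ' hu hu' hμ hμ' => ?_⟩
  have h1 := hb u (per hn hv μ) (fun i => by
    rw [hu i, norm_mul, norm_real, Real.norm_eq_abs, abs_of_nonneg (hμ i)]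
    exact le_per hn hv hμ i) (per_nonneg hn hv hμ)
  have h2 : BB hn hv u u' = ∑ i, cr (u i - u i0) ((μ' i : ℂ) * eg hn hv i) := by
    have h3 : ∑ i, cr (u i - u i0) ((μ' i : ℂ) * eg hn hv i) =
        ∑ i, cr (u i) ((μ' i : ℂ) * eg hn hv i) - cr (u i0) (∑ i, (μ' i : ℂ) * eg hn hv i) := by
      have h4 : cr (u i0) (∑ i, (μ' i : ℂ) * eg hn hv i) =
          ∑ i, cr (u i0) ((μ' i : ℂ) * eg hn hv i) := by
        simp only [cr, re_sum, im_sum, Finset.mul_sum, Finset.sum_sub_distrib]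
      rw [h4, ← Finset.sum_sub_distrib]
      refine Finset.sum_congr rfl (fun i _ => ?_)
      simp only [cr, sub_re, sub_im]
      ring
    rw [h3, par_sum hn hv hu', cr_zero_right, sub_zero]
    unfold BB
    exact Finset.sum_congr rfl (fun i _ => by rw [hu' i])
  rw [h2]
  calc |∑ i, cr (u i - u i0) ((μ' i : ℂ) * eg hn hv i)|
      ≤ ∑ i, |cr (u i - u i0) ((μ' i : ℂ) * eg hn hv i)| := Finset.abs_sum_le_sum_abs _ _
    _ ≤ ∑ i, (C * per hn hv μ) * (μ' i * ‖eg hn hv i‖) := by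
        refine Finset.sum_le_sum (fun i _ => ?_)
        refine (abs_cr_le _ _).trans ?_
        rw [norm_mul, norm_real, Real.norm_eq_abs, abs_of_nonneg (hμ' i)]
        have := h1 i
        have := mul_nonneg (hμ' i) (norm_nonneg (eg hn hv i))
        gcongr
    _ = C * (per hn hv μ * per hn hv μ') := by
        rw [← Finset.mul_sum]
        unfold per
        ring

/-- The mixed area with the polygon itself controls the perimeter. -/
theorem per_le (hn : 3 ≤ n) (hv : ConvexIndependent ℝ v) :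
    ∃ C : ℝ, 0 < C ∧ ∀ (u : Fin n → ℂ) (μ : Fin n → ℝ), Par hn hv u μ → (∀ i, 0 ≤ μ i) →
      per hn hv μ ≤ C * BB hn hv v u := by
  classical
  obtain ⟨z, hz⟩ := PP_nonempty hn hv
  have hpos : ∀ i, 0 < cr (eg hn hv i) (z - v i) := fun i => (nxt_side hn hv i).cr_pos hv hz
  have hne : (Finset.univ : Finset (Fin n)).Nonempty := ⟨⟨0, by omega⟩, Finset.mem_univ _⟩
  set C : ℝ := ∑ i, ‖eg hn hv i‖ / cr (eg hn hv i) (z - v i) with hC
  have hCi : ∀ i, ‖eg hn hv i‖ ≤ C * cr (eg hn hv i) (z - v i) := by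
    intro i
    have h1 : ‖eg hn hv i‖ / cr (eg hn hv i) (z - v i) ≤ C :=
      Finset.single_le_sum (f := fun i => ‖eg hn hv i‖ / cr (eg hn hv i) (z - v i))
        (fun j _ => div_nonneg (norm_nonneg _) (hpos j).le) (Finset.mem_univ i)
    rwa [div_le_iff₀ (hpos i)] at h1
  have hC0 : 0 < C := by
    apply Finset.sum_pos (fun i _ => div_pos (norm_pos_iff.2 (eg_ne hn hv i)) (hpos i)) hne
  refine ⟨C, hC0, fun u μ hu hμ => ?_⟩
  have h1 : BB hn hv v u = ∑ j, μ j * cr (eg hn hv j) (z - v j) := by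
    have h2 : ∀ j, cr (v j) (u (nxt hn hv j) - u j) =
        μ j * cr (eg hn hv j) (z - v j) + cr z ((μ j : ℂ) * eg hn hv j) := by
      intro j
      rw [hu j]
      simp only [cr, sub_re, sub_im, mul_re, mul_im, ofReal_re, ofReal_im]
      ring
    unfold BB
    rw [Finset.sum_congr rfl (fun j _ => h2 j), Finset.sum_add_distrib]
    have h3 : ∑ j, cr z ((μ j : ℂ) * eg hn hv j) = cr z (∑ j, (μ j : ℂ) * eg hn hv j) := by
      simp only [cr, re_sum, im_sum, Finset.mul_sum, Finset.sum_sub_distrib]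
    rw [h3, par_sum hn hv hu, cr_zero_right, add_zero]
  rw [h1, Finset.mul_sum]
  unfold per
  refine Finset.sum_le_sum (fun i _ => ?_)
  calc μ i * ‖eg hn hv i‖ ≤ μ i * (C * cr (eg hn hv i) (z - v i)) :=
        mul_le_mul_of_nonneg_left (hCi i) (hμ i)
    _ = _ := by ring

/-- Without parallel sides the area controls the perimeter. -/
theorem area_per (hn : 3 ≤ n) (hv : ConvexIndependent ℝ v)
    (hpar : ∀ i k, i ≠ k → cr (eg hn hv i) (eg hn hv k) ≠ 0) :
    ∃ c : ℝ, 0 < c ∧ ∀ (u : Fin n → ℂ) (μ : Fin n → ℝ), Par hn hv u μ → (∀ i, 0 ≤ μ i) →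
      c * per hn hv μ ^ 2 ≤ BB hn hv u u := by
  classical
  -- a lower bound for the sines
  obtain ⟨δ, hδ, hδb⟩ : ∃ δ : ℝ, 0 < δ ∧ ∀ i k, i ≠ k →
      δ * (‖eg hn hv i‖ * ‖eg hn hv k‖) ≤ |cr (eg hn hv i) (eg hn hv k)| := by
    set S : ℝ := ∑ i, ∑ k, ‖eg hn hv i‖ * ‖eg hn hv k‖ / |cr (eg hn hv i) (eg hn hv k)| with hS
    have hS0 : 0 ≤ S := Finset.sum_nonneg (fun i _ => Finset.sum_nonneg (fun k _ => by positivity))
    refine ⟨1 / (S + 1), by positivity, fun i k hik => ?_⟩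
    have hp : 0 < |cr (eg hn hv i) (eg hn hv k)| := abs_pos.2 (hpar i k hik)
    have h1 : ‖eg hn hv i‖ * ‖eg hn hv k‖ / |cr (eg hn hv i) (eg hn hv k)| ≤ S := by
      refine le_trans ?_ (Finset.single_le_sum (f := fun i => ∑ k, ‖eg hn hv i‖ * ‖eg hn hv k‖ /
        |cr (eg hn hv i) (eg hn hv k)|)
        (fun j _ => Finset.sum_nonneg (fun k _ => by positivity)) (Finset.mem_univ i))
      exact Finset.single_le_sum (f := fun k => ‖eg hn hv i‖ * ‖eg hn hv k‖ /
        |cr (eg hn hv i) (eg hn hv k)|) (fun k _ => by positivity) (Finset.mem_univ k)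
    rw [div_le_iff₀ hp] at h1
    rw [div_mul_eq_mul_div, one_mul, div_le_iff₀ (by positivity)]
    nlinarith
  have hn0 : (0 : ℝ) < n := by exact_mod_cast (show 0 < n by omega)
  refine ⟨δ / (2 * n ^ 2), by positivity, fun u μ hu hμ => ?_⟩
  have hne : (Finset.univ : Finset (Fin n)).Nonempty := ⟨⟨0, by omega⟩, Finset.mem_univ _⟩
  obtain ⟨i, _, hi⟩ := Finset.exists_max_image Finset.univ (fun j => μ j * ‖eg hn hv j‖) hne
  set L := per hn hv μ with hL
  have hL0 : 0 ≤ L := per_nonneg hn hv hμ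
  -- the longest side
  have h1 : L ≤ n * (μ i * ‖eg hn hv i‖) := by
    have := Finset.sum_le_card_nsmul Finset.univ (fun j => μ j * ‖eg hn hv j‖)
      (μ i * ‖eg hn hv i‖) (fun j hj => hi j hj)
    rw [Finset.card_univ, Fintype.card_fin, nsmul_eq_mul] at this
    exact this
  -- closing condition
  have h2 : μ i * ‖eg hn hv i‖ ≤ ∑ k ∈ Finset.univ.erase i, μ k * ‖eg hn hv k‖ := by
    have h3 := par_sum hn hv hu
    rw [← Finset.add_sum_erase _ _ (Finset.mem_univ i)] at h3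
    have h4 : (μ i : ℂ) * eg hn hv i = - ∑ k ∈ Finset.univ.erase i, (μ k : ℂ) * eg hn hv k := by
      linear_combination h3
    have h5 : μ i * ‖eg hn hv i‖ = ‖(μ i : ℂ) * eg hn hv i‖ := by
      rw [norm_mul, norm_real, Real.norm_eq_abs, abs_of_nonneg (hμ i)]
    rw [h5, h4, norm_neg]
    refine (norm_sum_le _ _).trans (le_of_eq ?_)
    refine Finset.sum_congr rfl (fun k _ => ?_)
    rw [norm_mul, norm_real, Real.norm_eq_abs, abs_of_nonneg (hμ k)]
  have h3 : L ≤ 2 * ∑ k ∈ Finset.univ.erase i, μ k * ‖eg hn hv k‖ := by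
    have : L = μ i * ‖eg hn hv i‖ + ∑ k ∈ Finset.univ.erase i, μ k * ‖eg hn hv k‖ := by
      rw [hL]; unfold per
      rw [← Finset.add_sum_erase _ _ (Finset.mem_univ i)]
    linarith
  have h4 : ∑ k ∈ Finset.univ.erase i, δ * (μ i * ‖eg hn hv i‖) * (μ k * ‖eg hn hv k‖) ≤
      n * BB hn hv u u := by
    have h5 : ∀ k ∈ Finset.univ.erase i, δ * (μ i * ‖eg hn hv i‖) * (μ k * ‖eg hn hv k‖) ≤
        BB hn hv u u := by
      intro k hk
      have hki : i ≠ k := (Finset.ne_of_mem_erase hk).symm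
      have h6 := area_lower hn hv hu hμ i k
      have h7 := hδb i k hki
      calc δ * (μ i * ‖eg hn hv i‖) * (μ k * ‖eg hn hv k‖) =
          μ i * (μ k * (δ * (‖eg hn hv i‖ * ‖eg hn hv k‖))) := by ring
        _ ≤ μ i * (μ k * |cr (eg hn hv i) (eg hn hv k)|) := by
            have := hμ i
            have := hμ k
            gcongr
        _ ≤ _ := h6
    have h8 := Finset.sum_le_card_nsmul _ _ _ h5
    rw [nsmul_eq_mul] at h8
    refine h8.trans ?_
    have h9 : 0 ≤ BB hn hv u u := by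
      have := area_lower hn hv hu hμ i i
      rw [cr_self, abs_zero, mul_zero, mul_zero] at this
      exact this
    have h10 : ((Finset.univ.erase i).card : ℝ) ≤ n := by
      have : (Finset.univ.erase i).card ≤ (Finset.univ : Finset (Fin n)).card :=
        Finset.card_le_card (Finset.erase_subset _ _)
      rw [Finset.card_univ, Fintype.card_fin] at this
      exact_mod_cast this
    exact mul_le_mul_of_nonneg_right h10 h9
  rw [← Finset.mul_sum] at h4
  have h5 : δ * (L / n) * (L / 2) ≤ n * BB hn hv u u := by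
    refine le_trans ?_ h4
    have ha : L / n ≤ μ i * ‖eg hn hv i‖ := by
      rw [div_le_iff₀ hn0]; linarith
    have hb : L / 2 ≤ ∑ k ∈ Finset.univ.erase i, μ k * ‖eg hn hv k‖ := by linarith
    have hc : 0 ≤ L / n := by positivity
    have hd : 0 ≤ δ * (μ i * ‖eg hn hv i‖) :=
      mul_nonneg hδ.le (mul_nonneg (hμ i) (norm_nonneg _))
    gcongr
  rw [div_mul_eq_mul_div, div_le_iff₀ (by positivity)]
  have h6 : δ * (L / n) * (L / 2) = δ * L ^ 2 / (2 * n) := by
    field_simp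
  rw [h6, div_le_iff₀ (by positivity)] at h5
  calc δ * L ^ 2 ≤ n * BB hn hv u u * (2 * n) := h5
    _ = _ := by ring

end Pool.Agent.Lib.BilX
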