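import Pool.Agent.Lib.MP_7bc51d_an.Moments

set_option autoImplicit false

/-!
Polygons whose sides are nonnegative multiples of the sides of a convex polygon: support
property, lower bound for the area, reversed Cauchy-Schwarz inequality for mixed areas.
-/

namespace Pool.Agent.Lib.BilX

open Complex MeasureTheory Set Filter
open scoped ComplexConjugate Topology ENNReal
open Pool.Agent.Lib.Bil

variable {n : ℕ} {v : Fin n → ℂ}

/-- Edge vectors. -/
noncomputable def eg (hn : 3 ≤ n) (hv : ConvexIndependent ℝ v) (i : Fin n) : ℂ :=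
  v (nxt hn hv i) - v i

/-- Twice the mixed area. -/
noncomputable def BB (hn : 3 ≤ n) (hv : ConvexIndependent ℝ v) (u u' : Fin n → ℂ) : ℝ :=
  ∑ i, cr (u i) (u' (nxt hn hv i) - u' i)

/-- Closed polygons with sides parallel to those of `v`. -/
def Par (hn : 3 ≤ n) (hv : ConvexIndependent ℝ v) (u : Fin n → ℂ) (μ : Fin n → ℝ) : Prop :=
  ∀ i, u (nxt hn hv i) - u i = (μ i : ℂ) * eg hn hv i

theorem eg_ne (hn : 3 ≤ n) (hv : ConvexIndependent ℝ v) (i : Fin n) : eg hn hv i ≠ 0 :=
  v_sub_ne hv (nxt_side hn hv i).ne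

theorem par_v (hn : 3 ≤ n) (hv : ConvexIndependent ℝ v) : Par hn hv v (fun _ => 1) := by
  intro i; simp [eg]

theorem par_comb (hn : 3 ≤ n) (hv : ConvexIndependent ℝ v) {u u' : Fin n → ℂ} {μ μ' : Fin n → ℝ}
    (hu : Par hn hv u μ) (hu' : Par hn hv u' μ') (a b : ℝ) :
    Par hn hv (fun i => (a : ℂ) * u i - (b : ℂ) * u' i) (fun i => a * μ i - b * μ' i) := by
  intro i
  have h1 := hu i
  have h2 := hu' i
  simp only [ofReal_sub, ofReal_mul]
  linear_combination (a : ℂ) * h1 - (b : ℂ) * h2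

theorem BB_comb_left (hn : 3 ≤ n) (hv : ConvexIndependent ℝ v) (u u' w : Fin n → ℂ) (a b : ℝ) :
    BB hn hv (fun i => (a : ℂ) * u i - (b : ℂ) * u' i) w = a * BB hn hv u w - b * BB hn hv u' w := by
  unfold BB
  rw [Finset.mul_sum, Finset.mul_sum, ← Finset.sum_sub_distrib]
  refine Finset.sum_congr rfl (fun i _ => ?_)
  simp only [cr, sub_re, sub_im, mul_re, mul_im, ofReal_re, ofReal_im]
  ring

theorem BB_comb_right (hn : 3 ≤ n) (hv : ConvexIndependent ℝ v) (u u' w : Fin n → ℂ) (a b : ℝ) :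
    BB hn hv w (fun i => (a : ℂ) * u i - (b : ℂ) * u' i) = a * BB hn hv w u - b * BB hn hv w u' := by
  unfold BB
  rw [Finset.mul_sum, Finset.mul_sum, ← Finset.sum_sub_distrib]
  refine Finset.sum_congr rfl (fun i _ => ?_)
  simp only [cr, sub_re, sub_im, mul_re, mul_im, ofReal_re, ofReal_im]
  ring

/-- Minkowski's inequality against `v`. -/
theorem mink (hn : 3 ≤ n) (hv : ConvexIndependent ℝ v) {u : Fin n → ℂ} {μ : Fin n → ℝ}
    (hu : Par hn hv u μ) (hpos : 0 ≤ BB hn hv v v) :
    BB hn hv v v * BB hn hv u u ≤ BB hn hv u v ^ 2 ∧ BB hn hv u v = BB hn hv v u :=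
  minkowski hn hv (u := u) (μ := μ) hu hpos

theorem par_sum (hn : 3 ≤ n) (hv : ConvexIndependent ℝ v) {u : Fin n → ℂ} {μ : Fin n → ℝ}
    (hu : Par hn hv u μ) : ∑ i, (μ i : ℂ) * eg hn hv i = 0 := by
  have h1 : ∑ i, (μ i : ℂ) * eg hn hv i = ∑ i, u (nxt hn hv i) - ∑ i, u i := by
    rw [← Finset.sum_sub_distrib]
    exact Finset.sum_congr rfl (fun i _ => (hu i).symm)
  have h2 : ∑ i, u (nxt hn hv i) = ∑ i, u i :=
    (Function.Bijective.sum_comp (nxt_bijective hn hv) u)
  rw [h1, h2, sub_self]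

/-- Reversed Cauchy-Schwarz inequality. -/
theorem rcs (hn : 3 ≤ n) (hv : ConvexIndependent ℝ v) {u u' : Fin n → ℂ} {μ μ' : Fin n → ℝ}
    (hu : Par hn hv u μ) (hu' : Par hn hv u' μ') (hpos : 0 < BB hn hv v v)
    (hsym : BB hn hv u u' = BB hn hv u' u) (hu0 : 0 ≤ BB hn hv u u)
    (hu0' : 0 ≤ BB hn hv u' u') :
    BB hn hv u u * BB hn hv u' u' ≤ BB hn hv u u' ^ 2 := by
  by_contra hcon
  push Not at hcon
  have hp : 0 < BB hn hv u u * BB hn hv u' u' := lt_of_le_of_lt (sq_nonneg _) hcon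
  have hx : 0 < BB hn hv u u := by
    rcases eq_or_lt_of_le hu0 with h | h
    · rw [← h, zero_mul] at hp; exact absurd hp (lt_irrefl _)
    · exact h
  have hy : 0 < BB hn hv u' u' := by
    rcases eq_or_lt_of_le hu0' with h | h
    · rw [← h, mul_zero] at hp; exact absurd hp (lt_irrefl _)
    · exact h
  set α := BB hn hv u' v with hα
  set β := BB hn hv u v with hβ
  have hz := par_comb hn hv hu hu' α β
  obtain ⟨m1, -⟩ := mink hn hv hz hpos.le
  have e1 : BB hn hv (fun i => (α : ℂ) * u i - (β : ℂ) * u' i) v = 0 := by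
    rw [BB_comb_left, ← hα, ← hβ]; ring
  rw [e1] at m1
  have e2 : BB hn hv (fun i => (α : ℂ) * u i - (β : ℂ) * u' i)
      (fun i => (α : ℂ) * u i - (β : ℂ) * u' i) =
      α ^ 2 * BB hn hv u u - 2 * α * β * BB hn hv u u' + β ^ 2 * BB hn hv u' u' := by
    rw [BB_comb_left, BB_comb_right, BB_comb_right, ← hsym]; ring
  rw [e2] at m1
  have h3 : α ^ 2 * BB hn hv u u - 2 * α * β * BB hn hv u u' + β ^ 2 * BB hn hv u' u' ≤ 0 := by
    by_contra h
    push Not at h
    have := mul_pos hpos h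
    linarith
  have h4 : (α * BB hn hv u u - β * BB hn hv u u') ^ 2 +
      β ^ 2 * (BB hn hv u u * BB hn hv u' u' - BB hn hv u u' ^ 2) ≤ 0 := by
    have : (α * BB hn hv u u - β * BB hn hv u u') ^ 2 +
        β ^ 2 * (BB hn hv u u * BB hn hv u' u' - BB hn hv u u' ^ 2) =
        BB hn hv u u * (α ^ 2 * BB hn hv u u - 2 * α * β * BB hn hv u u' +
          β ^ 2 * BB hn hv u' u') := by ring
    rw [this]
    exact mul_nonpos_of_nonneg_of_nonpos hx.le h3
  have hβ0 : β = 0 := by
    by_contra h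
    have h5 : 0 < β ^ 2 := by positivity
    have h6 := mul_pos h5 (sub_pos.2 hcon)
    have h7 := sq_nonneg (α * BB hn hv u u - β * BB hn hv u u')
    linarith
  obtain ⟨m2, -⟩ := mink hn hv hu hpos.le
  rw [← hβ, hβ0] at m2
  have := mul_pos hpos hx
  nlinarith

/-- Turning of consecutive sides. -/
theorem turn (hn : 3 ≤ n) (hv : ConvexIndependent ℝ v) (i : Fin n) :
    0 < cr (eg hn hv i) (eg hn hv (nxt hn hv i)) := by
  have hside := nxt_side hn hv
  have h1 : nxt hn hv (nxt hn hv i) ≠ i := by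
    intro h
    have h2 := hside (nxt hn hv i)
    rw [h] at h2
    exact not_both_sides hn (hside i) h2
  have h2 := (hside i).2 (nxt hn hv (nxt hn hv i)) h1 (hside (nxt hn hv i)).1.symm
  have h3 : v (nxt hn hv (nxt hn hv i)) - v i = eg hn hv i + eg hn hv (nxt hn hv i) := by
    unfold eg; ring
  rw [h3] at h2
  change 0 < cr (eg hn hv i) (eg hn hv i + eg hn hv (nxt hn hv i)) at h2
  rw [cr_add_right, cr_self, zero_add] at h2
  exact h2

/-- A local minimum of a linear form over the vertices is a global one. -/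
theorem local_min (hn : 3 ≤ n) (hv : ConvexIndependent ℝ v) {d : ℂ} {i : Fin n}
    (h1 : cr d (eg hn hv i) ≤ 0) (h2 : 0 ≤ cr d (eg hn hv (nxt hn hv i))) (k : Fin n) :
    cr d (v (nxt hn hv i)) ≤ cr d (v k) := by
  have hp : 0 ≤ cr (eg hn hv (nxt hn hv i)) (v k - v (nxt hn hv i)) :=
    (nxt_side hn hv (nxt hn hv i)).cr_nonneg_vert k
  have hq : 0 ≤ cr (eg hn hv i) (v k - v (nxt hn hv i)) := by
    have h1 := (nxt_side hn hv i).cr_nonneg_vert k
    have h2 : v k - v (nxt hn hv i) = (v k - v i) - eg hn hv i := by unfold eg; ring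
    rw [h2, cr_sub_right, cr_self, sub_zero]
    exact h1
  have key : cr (eg hn hv i) (eg hn hv (nxt hn hv i)) * cr d (v k - v (nxt hn hv i)) =
      - cr (eg hn hv (nxt hn hv i)) (v k - v (nxt hn hv i)) * cr d (eg hn hv i) +
        cr (eg hn hv i) (v k - v (nxt hn hv i)) * cr d (eg hn hv (nxt hn hv i)) := by
    unfold cr; ring
  have h3 : 0 ≤ cr (eg hn hv i) (eg hn hv (nxt hn hv i)) * cr d (v k - v (nxt hn hv i)) := by
    rw [key]
    have := mul_nonneg hp (neg_nonneg.2 h1)
    have := mul_nonneg hq h2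
    linarith
  have h4 : 0 ≤ cr d (v k - v (nxt hn hv i)) := nonneg_of_mul_nonneg_right h3 (turn hn hv i)
  rw [cr_sub_right] at h4
  linarith

/-- Support property of polygons with nonnegative multiples of the sides. -/
theorem supp (hn : 3 ≤ n) (hv : ConvexIndependent ℝ v) {u : Fin n → ℂ} {μ : Fin n → ℝ}
    (hu : Par hn hv u μ) (hμ : ∀ i, 0 ≤ μ i) (i m : Fin n) :
    0 ≤ cr (eg hn hv i) (u m - u i) := by
  classical
  by_contra hcon
  push Not at hcon
  set h : Fin n → ℝ := fun k => cr (eg hn hv i) (u k - u i) with hh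
  set H : Fin n → ℝ := fun k => cr (eg hn hv i) (v k) with hH
  have hne : (Finset.univ : Finset (Fin n)).Nonempty := ⟨i, Finset.mem_univ _⟩
  obtain ⟨a, _, ha⟩ := Finset.exists_min_image Finset.univ h hne
  set S : Finset (Fin n) := Finset.univ.filter (fun k => h k = h a) with hS
  have hSne : S.Nonempty := ⟨a, by simp [hS]⟩
  obtain ⟨b, hbS, hb⟩ := Finset.exists_min_image S H hSne
  have hba : h b = h a := by
    have := Finset.mem_filter.1 hbS
    exact this.2
  have hneg : h b < 0 := by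
    rw [hba]
    exact lt_of_le_of_lt (ha m (Finset.mem_univ _)) hcon
  have hstep : ∀ k, h (nxt hn hv k) - h k = μ k * cr (eg hn hv i) (eg hn hv k) := by
    intro k
    have h1 := hu k
    simp only [hh]
    rw [← cr_sub_right, ← cr_smul_right, ← h1]
    congr 1
    ring
  have hstepH : ∀ k, H (nxt hn hv k) - H k = cr (eg hn hv i) (eg hn hv k) := by
    intro k
    simp only [hH]
    rw [← cr_sub_right]
    rfl
  -- next neighbour
  have hn1 : 0 ≤ cr (eg hn hv i) (eg hn hv b) := by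
    rw [← hstepH]
    by_cases hm : nxt hn hv b ∈ S
    · linarith [hb _ hm]
    · have h1 : h b < h (nxt hn hv b) := by
        refine lt_of_le_of_ne (hba ▸ ha _ (Finset.mem_univ _)) (fun h2 => hm ?_)
        rw [hS, Finset.mem_filter]
        exact ⟨Finset.mem_univ _, by rw [← h2, hba]⟩
      have h2 := hstep b
      have h3 : 0 < μ b * cr (eg hn hv i) (eg hn hv b) := by linarith
      have h4 := pos_of_mul_pos_right h3 (hμ b)
      rw [← hstepH] at h4
      exact h4.le
  obtain ⟨p, hp⟩ := (nxt_bijective hn hv).2 b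
  have hn2 : cr (eg hn hv i) (eg hn hv p) ≤ 0 := by
    rw [← hstepH, hp]
    by_cases hm : p ∈ S
    · linarith [hb _ hm]
    · have h1 : h b < h p := by
        refine lt_of_le_of_ne (hba ▸ ha _ (Finset.mem_univ _)) (fun h2 => hm ?_)
        rw [hS, Finset.mem_filter]
        exact ⟨Finset.mem_univ _, by rw [← h2, hba]⟩
      have h2 := hstep p
      rw [hp] at h2
      have h3 : 0 < μ p * (- cr (eg hn hv i) (eg hn hv p)) := by linarith
      have h4 := pos_of_mul_pos_right h3 (hμ p)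
      have h5 := hstepH p
      rw [hp] at h5
      linarith
  have hmin := local_min hn hv (i := p) hn2 (by rw [hp]; exact hn1)
  rw [hp] at hmin
  have h1 := hmin i
  -- so `b` is `i` or its successor
  have h2 : cr (eg hn hv i) (v b - v i) ≤ 0 := by
    rw [cr_sub_right]; linarith
  have h3 : b = i ∨ b = nxt hn hv i := by
    by_contra hcon2
    push Not at hcon2
    have := (nxt_side hn hv i).2 b hcon2.1 hcon2.2
    exact absurd h2 (not_le.2 this)
  rcases h3 with h3 | h3
  · rw [h3] at hneg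
    simp only [hh, sub_self, cr_zero_right, lt_irrefl] at hneg
  · rw [h3] at hneg
    simp only [hh] at hneg
    rw [hu i, cr_smul_right, cr_self, mul_zero] at hneg
    exact lt_irrefl _ hneg

/-- Lower bound for the area. -/
theorem area_lower (hn : 3 ≤ n) (hv : ConvexIndependent ℝ v) {u : Fin n → ℂ} {μ : Fin n → ℝ}
    (hu : Par hn hv u μ) (hμ : ∀ i, 0 ≤ μ i) (i k : Fin n) :
    μ i * (μ k * |cr (eg hn hv i) (eg hn hv k)|) ≤ BB hn hv u u := by
  classical
  obtain ⟨m, hm⟩ : ∃ m, μ k * |cr (eg hn hv i) (eg hn hv k)| ≤ cr (eg hn hv i) (u m - u i) := by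
    have h1 := supp hn hv hu hμ i k
    have h2 := supp hn hv hu hμ i (nxt hn hv k)
    have h3 : cr (eg hn hv i) (u (nxt hn hv k) - u i) - cr (eg hn hv i) (u k - u i) =
        μ k * cr (eg hn hv i) (eg hn hv k) := by
      rw [← cr_sub_right, ← cr_smul_right, ← hu k]
      congr 1
      ring
    rcases le_total 0 (cr (eg hn hv i) (eg hn hv k)) with h | h
    · refine ⟨nxt hn hv k, ?_⟩
      rw [abs_of_nonneg h]; linarith
    · refine ⟨k, ?_⟩
      rw [abs_of_nonpos h, mul_neg]; linarith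
  have h1 : BB hn hv u u = ∑ j, μ j * cr (eg hn hv j) (u m - u j) := by
    have h2 : ∀ j, cr (u j) (u (nxt hn hv j) - u j) =
        μ j * cr (eg hn hv j) (u m - u j) + cr (u m) ((μ j : ℂ) * eg hn hv j) := by
      intro j
      rw [hu j]
      simp only [cr, sub_re, sub_im, mul_re, mul_im, ofReal_re, ofReal_im]
      ring
    unfold BB
    rw [Finset.sum_congr rfl (fun j _ => h2 j), Finset.sum_add_distrib]
    have h3 : ∑ j, cr (u m) ((μ j : ℂ) * eg hn hv j) = cr (u m) (∑ j, (μ j : ℂ) * eg hn hv j) := by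
      simp only [cr, re_sum, im_sum, Finset.mul_sum, Finset.sum_sub_distrib]
    rw [h3, par_sum hn hv hu, cr_zero_right, add_zero]
  rw [h1]
  calc μ i * (μ k * |cr (eg hn hv i) (eg hn hv k)|) ≤ μ i * cr (eg hn hv i) (u m - u i) :=
        mul_le_mul_of_nonneg_left hm (hμ i)
    _ ≤ ∑ j, μ j * cr (eg hn hv j) (u m - u j) := by
        have := Finset.single_le_sum (f := fun j => μ j * cr (eg hn hv j) (u m - u j))
          (fun j _ => mul_nonneg (hμ j) (supp hn hv hu hμ j m)) (Finset.mem_univ i)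
        exact this

end Pool.Agent.Lib.BilX
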