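import Pool.Agent.Lib.MP_7bc51d_an_cross.Ang

set_option autoImplicit false

/-!
Crossing of invariant sets: final inequalities.
-/

namespace Pool.Agent.Lib.BilX

open Complex MeasureTheory Set Filter
open scoped ComplexConjugate Topology ENNReal Real
open Pool.Agent.Lib.Bil

variable {n : ℕ} {v : Fin n → ℂ}

/-- Invariant sets. -/
structure IS (v : Fin n → ℂ) (A : Set (ℂ × ℂ)) : Prop where
  meas : MeasurableSet A
  cone : Cone A
  inv : Inv v A
  ch : ∀ᵐ w, ChordAt v A w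

/-- The area of the table. -/
noncomputable def ar (v : Fin n → ℂ) : ℝ := (volume (PP v)).toReal

theorem ar_pos (hn : 3 ≤ n) (hv : ConvexIndependent ℝ v) : 0 < ar v := by
  unfold ar
  apply ENNReal.toReal_pos
  · exact (isOpen_PP.measure_pos volume (PP_nonempty hn hv)).ne'
  · exact isBounded_PP.measure_lt_top.ne

/-- Normalised crossing. -/
noncomputable def JJ (v : Fin n → ℂ) (A B : Set (ℂ × ℂ)) : ℝ :=
  (∫ x in PP v, cro A B x) / (2 * π ^ 2 * ar v)

/-- Normalised measure. -/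
noncomputable def mm (v : Fin n → ℂ) (A : Set (ℂ × ℂ)) : ℝ := (∫ x in PP v, frac A x) / ar v

theorem frac_int {A : Set (ℂ × ℂ)} (hA : MeasurableSet A) :
    IntegrableOn (fun x => frac A x) (PP v) := by
  refine intOn_PP (frac_meas hA) (C := 1) (fun x => ?_)
  rw [abs_of_nonneg (frac_nonneg A x)]
  exact frac_le_one A x

theorem mm_nonneg (v : Fin n → ℂ) (A : Set (ℂ × ℂ)) : 0 ≤ mm v A :=
  div_nonneg (integral_nonneg (fun x => frac_nonneg A x)) ENNReal.toReal_nonneg

theorem JJ_eq (hn : 3 ≤ n) (hv : ConvexIndependent ℝ v) {A B : Set (ℂ × ℂ)} (hA : IS v A)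
    (hB : IS v B) :
    JJ v A B = 8 / (π ^ 2 * ar v) * BB hn hv (uS v B) (uS v A) := by
  rw [BB_sets hn hv hA.meas hB.meas hA.cone hB.cone hA.inv hB.inv hA.ch hB.ch]
  unfold JJ
  have := (ar_pos hn hv).ne'
  have := Real.pi_ne_zero
  field_simp
  ring

theorem mm_eq (hn : 3 ≤ n) (hv : ConvexIndependent ℝ v) {A : Set (ℂ × ℂ)} (hA : IS v A) :
    mm v A = 2 / (π * ar v) * BB hn hv v (uS v A) := by
  rw [BB_v_set hn hv hA.meas hA.cone hA.inv hA.ch]
  unfold mm
  have := (ar_pos hn hv).ne'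
  have := Real.pi_ne_zero
  field_simp

theorem JJ_comm {A B : Set (ℂ × ℂ)} (hA : IS v A) (hB : IS v B) : JJ v A B = JJ v B A := by
  unfold JJ
  congr 1
  exact integral_congr_ae (Eventually.of_forall
    (fun x => cro_comm hA.meas hB.meas hA.cone hB.cone x))

theorem JJ_nonneg (v : Fin n → ℂ) (A B : Set (ℂ × ℂ)) : 0 ≤ JJ v A B := by
  unfold JJ
  have := Real.pi_pos
  exact div_nonneg (integral_nonneg (fun x => cro_nonneg A B x))
    (mul_nonneg (by positivity) ENNReal.toReal_nonneg)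

theorem BBs_comm (hn : 3 ≤ n) (hv : ConvexIndependent ℝ v) {A B : Set (ℂ × ℂ)} (hA : IS v A)
    (hB : IS v B) : BB hn hv (uS v A) (uS v B) = BB hn hv (uS v B) (uS v A) := by
  rw [BB_sets hn hv hA.meas hB.meas hA.cone hB.cone hA.inv hB.inv hA.ch hB.ch,
    BB_sets hn hv hB.meas hA.meas hB.cone hA.cone hB.inv hA.inv hB.ch hA.ch]
  congr 1
  exact integral_congr_ae (Eventually.of_forall
    (fun x => cro_comm hB.meas hA.meas hB.cone hA.cone x))

theorem BBs_nonneg (hn : 3 ≤ n) (hv : ConvexIndependent ℝ v) {A B : Set (ℂ × ℂ)} (hA : IS v A)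
    (hB : IS v B) : 0 ≤ BB hn hv (uS v B) (uS v A) := by
  rw [BB_sets hn hv hA.meas hB.meas hA.cone hB.cone hA.inv hB.inv hA.ch hB.ch]
  exact mul_nonneg (by norm_num) (integral_nonneg (fun x => cro_nonneg A B x))

/-- Reversed Cauchy-Schwarz inequality for crossings. -/
theorem JJ_rcs (hn : 3 ≤ n) (hv : ConvexIndependent ℝ v) {A B : Set (ℂ × ℂ)} (hA : IS v A)
    (hB : IS v B) : JJ v A A * JJ v B B ≤ JJ v A B ^ 2 := by
  have h0 : 0 < BB hn hv v v := by rw [BB_vv]; exact mul_pos two_pos (ar_pos hn hv)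
  have h := rcs hn hv (par_set hn hv hA.meas hA.inv hA.ch) (par_set hn hv hB.meas hB.inv hB.ch) h0
    (BBs_comm hn hv hA hB) (BBs_nonneg hn hv hA hA) (BBs_nonneg hn hv hB hB)
  rw [JJ_eq hn hv hA hA, JJ_eq hn hv hB hB, JJ_eq hn hv hA hB, mul_pow, ← BBs_comm hn hv hA hB]
  have hc : 0 ≤ (8 / (π ^ 2 * ar v)) ^ 2 := sq_nonneg _
  calc 8 / (π ^ 2 * ar v) * BB hn hv (uS v A) (uS v A) *
        (8 / (π ^ 2 * ar v) * BB hn hv (uS v B) (uS v B)) =
        (8 / (π ^ 2 * ar v)) ^ 2 * (BB hn hv (uS v A) (uS v A) * BB hn hv (uS v B) (uS v B)) := by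
          ring
    _ ≤ _ := mul_le_mul_of_nonneg_left h hc

/-- Upper bound. -/
theorem JJ_upper (hn : 3 ≤ n) (hv : ConvexIndependent ℝ v) :
    ∃ C : ℝ, 0 < C ∧ ∀ A B : Set (ℂ × ℂ), IS v A → IS v B → JJ v A B ≤ C * (mm v A * mm v B) := by
  obtain ⟨C, hC, h1⟩ := BB_upper hn hv
  obtain ⟨C', hC', h2⟩ := per_le hn hv
  have hpi := Real.pi_pos
  have har := ar_pos hn hv
  refine ⟨2 * ar v * (C + 1) * C' ^ 2, by positivity, fun A B hA hB => ?_⟩
  have pA := par_set hn hv hA.meas hA.inv hA.ch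
  have pB := par_set hn hv hB.meas hB.inv hB.ch
  have mA := mS_nonneg hn hv A
  have mB := mS_nonneg hn hv B
  have g1 := (le_abs_self _).trans (h1 _ _ _ _ pB pA mB mA)
  have g2 := h2 _ _ pA mA
  have g3 := h2 _ _ pB mB
  have n1 := per_nonneg hn hv mA
  have n2 := per_nonneg hn hv mB
  have g4 : per hn hv (mS hn hv B) * per hn hv (mS hn hv A) ≤
      (C' * BB hn hv v (uS v B)) * (C' * BB hn hv v (uS v A)) :=
    mul_le_mul g3 g2 n1 (n2.trans g3)
  have g5 : BB hn hv (uS v B) (uS v A) ≤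
      (C + 1) * ((C' * BB hn hv v (uS v B)) * (C' * BB hn hv v (uS v A))) := by
    refine g1.trans ?_
    have : C * (per hn hv (mS hn hv B) * per hn hv (mS hn hv A)) ≤
        (C + 1) * (per hn hv (mS hn hv B) * per hn hv (mS hn hv A)) := by
      have := mul_nonneg n2 n1
      nlinarith
    exact this.trans (mul_le_mul_of_nonneg_left g4 (by linarith))
  rw [JJ_eq hn hv hA hB, mm_eq hn hv hA, mm_eq hn hv hB]
  calc 8 / (π ^ 2 * ar v) * BB hn hv (uS v B) (uS v A) ≤ 8 / (π ^ 2 * ar v) *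
      ((C + 1) * ((C' * BB hn hv v (uS v B)) * (C' * BB hn hv v (uS v A)))) :=
        mul_le_mul_of_nonneg_left g5 (by positivity)
    _ = _ := by field_simp; ring

/-- Lower bound without parallel sides. -/
theorem JJ_lower (hn : 3 ≤ n) (hv : ConvexIndependent ℝ v)
    (hpar : ∀ i k, i ≠ k → cr (eg hn hv i) (eg hn hv k) ≠ 0) :
    ∃ c : ℝ, 0 < c ∧ ∀ A B : Set (ℂ × ℂ), IS v A → IS v B → c * (mm v A * mm v B) ≤ JJ v A B := by
  obtain ⟨c, hc, h1⟩ := area_per hn hv hpar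
  obtain ⟨C, hC, h2⟩ := BB_upper hn hv
  have hpi := Real.pi_pos
  have har := ar_pos hn hv
  have h1v : ∀ i : Fin n, (0 : ℝ) ≤ (fun _ => (1 : ℝ)) i := fun _ => zero_le_one
  set L := per hn hv (fun _ => (1 : ℝ)) with hL
  have hL0 : 0 ≤ L := per_nonneg hn hv h1v
  set D := C * L + 1 with hD
  have hD0 : 0 < D := by positivity
  refine ⟨2 * ar v * (c / D ^ 2), by positivity, fun A B hA hB => ?_⟩
  have pA := par_set hn hv hA.meas hA.inv hA.ch
  have pB := par_set hn hv hB.meas hB.inv hB.ch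
  have mA := mS_nonneg hn hv A
  have mB := mS_nonneg hn hv B
  have n1 := per_nonneg hn hv mA
  have n2 := per_nonneg hn hv mB
  have a1 := h1 _ _ pA mA
  have a2 := h1 _ _ pB mB
  have h0 : 0 < BB hn hv v v := by rw [BB_vv]; exact mul_pos two_pos (ar_pos hn hv)
  have r := rcs hn hv pA pB h0
    (BBs_comm hn hv hA hB) (BBs_nonneg hn hv hA hA) (BBs_nonneg hn hv hB hB)
  have a3 : c * (per hn hv (mS hn hv A) * per hn hv (mS hn hv B)) ≤
      BB hn hv (uS v B) (uS v A) := by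
    have hnn := BBs_nonneg hn hv hA hB
    rw [BBs_comm hn hv hA hB] at r
    apply le_of_sq_le_sq ?_ hnn
    refine le_trans ?_ r
    have : (c * (per hn hv (mS hn hv A) * per hn hv (mS hn hv B))) ^ 2 =
        (c * per hn hv (mS hn hv A) ^ 2) * (c * per hn hv (mS hn hv B) ^ 2) := by ring
    rw [this]
    exact mul_le_mul a1 a2 (by positivity) (BBs_nonneg hn hv hA hA)
  have b1 : ∀ {A : Set (ℂ × ℂ)}, IS v A → BB hn hv v (uS v A) ≤ D * per hn hv (mS hn hv A) := by
    intro A hA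
    have := (le_abs_self _).trans (h2 _ _ _ _ (par_v hn hv)
      (par_set hn hv hA.meas hA.inv hA.ch) h1v (mS_nonneg hn hv A))
    refine this.trans ?_
    have := per_nonneg hn hv (mS_nonneg hn hv A)
    rw [hD, ← mul_assoc]
    exact mul_le_mul_of_nonneg_right (by linarith) this
  have b2 := b1 hA
  have b3 := b1 hB
  have b4 : ∀ {A : Set (ℂ × ℂ)}, IS v A → 0 ≤ BB hn hv v (uS v A) := by
    intro A hA
    have := mm_nonneg v A
    rw [mm_eq hn hv hA] at this
    exact nonneg_of_mul_nonneg_right this (by positivity)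
  have b5 : c / D ^ 2 * (BB hn hv v (uS v A) * BB hn hv v (uS v B)) ≤
      BB hn hv (uS v B) (uS v A) := by
    refine le_trans ?_ a3
    have h6 : BB hn hv v (uS v A) * BB hn hv v (uS v B) ≤
        (D * per hn hv (mS hn hv A)) * (D * per hn hv (mS hn hv B)) :=
      mul_le_mul b2 b3 (b4 hB) (by positivity)
    calc c / D ^ 2 * (BB hn hv v (uS v A) * BB hn hv v (uS v B)) ≤ c / D ^ 2 *
        ((D * per hn hv (mS hn hv A)) * (D * per hn hv (mS hn hv B))) :=
          mul_le_mul_of_nonneg_left h6 (by positivity)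
      _ = _ := by field_simp
  rw [JJ_eq hn hv hA hB, mm_eq hn hv hA, mm_eq hn hv hB]
  calc 2 * ar v * (c / D ^ 2) * (2 / (π * ar v) * BB hn hv v (uS v A) *
        (2 / (π * ar v) * BB hn hv v (uS v B))) =
        8 / (π ^ 2 * ar v) * (c / D ^ 2 * (BB hn hv v (uS v A) * BB hn hv v (uS v B))) := by
          field_simp; ring
    _ ≤ _ := mul_le_mul_of_nonneg_left b5 (by positivity)

end Pool.Agent.Lib.BilX
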