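import Pool.Agent.Lib.MP_7bc51d_an_cross.Main

set_option autoImplicit false

/-!
Triangles, positivity, and the relative measure.
-/

namespace Pool.Agent.Lib.BilX

open Complex MeasureTheory Set Filter
open scoped ComplexConjugate Topology ENNReal Real
open Pool.Agent.Lib.Bil

theorem three_cycle : ∀ σ : Fin 3 → Fin 3, (∀ i, σ i ≠ i) → (∀ i, σ (σ i) ≠ i) →
    ∀ i j, i ≠ j → σ i = j ∨ σ j = i := by decide

theorem tri_par (hn : 3 ≤ 3) {v : Fin 3 → ℂ} (hv : ConvexIndependent ℝ v) {i j : Fin 3}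
    (hij : i ≠ j) : cr (eg hn hv i) (eg hn hv j) ≠ 0 := by
  have h1 : ∀ i, nxt hn hv i ≠ i := fun i => (nxt_side hn hv i).ne.symm
  have h2 : ∀ i, nxt hn hv (nxt hn hv i) ≠ i := by
    intro i h
    have h2 := nxt_side hn hv (nxt hn hv i)
    rw [h] at h2
    exact not_both_sides hn (nxt_side hn hv i) h2
  rcases three_cycle (nxt hn hv) h1 h2 i j hij with h | h
  · have := turn hn hv i
    rw [h] at this
    exact this.ne'
  · have := turn hn hv j
    rw [h] at this
    rw [cr_swap]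
    exact (neg_neg_of_pos this).ne

theorem sum_cr {n : ℕ} {hn : 3 ≤ n} {v : Fin n → ℂ} {hv : ConvexIndependent ℝ v} {u : Fin n → ℂ}
    {μ : Fin n → ℝ} (hu : Par hn hv u μ) (d : ℂ) : ∑ i, μ i * cr d (eg hn hv i) = 0 := by
  have h := par_sum hn hv hu
  have h2 : cr d (∑ i, (μ i : ℂ) * eg hn hv i) = ∑ i, μ i * cr d (eg hn hv i) := by
    have h4 : cr d (∑ i, (μ i : ℂ) * eg hn hv i) = ∑ i, cr d ((μ i : ℂ) * eg hn hv i) := by
      simp only [cr, re_sum, im_sum, Finset.mul_sum, Finset.sum_sub_distrib]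
    rw [h4]
    exact Finset.sum_congr rfl (fun i _ => cr_smul_right _ _ _)
  rw [← h2, h, cr_zero_right]

theorem tri_const (hn : 3 ≤ 3) {v : Fin 3 → ℂ} (hv : ConvexIndependent ℝ v) {u : Fin 3 → ℂ}
    {μ : Fin 3 → ℝ} (hu : Par hn hv u μ) : ∀ i, μ i = μ 0 := by
  have g0 := sum_cr hu (eg hn hv 0)
  have g1 := sum_cr hu (eg hn hv 1)
  have k0 := sum_cr (par_v hn hv) (eg hn hv 0)
  have k1 := sum_cr (par_v hn hv) (eg hn hv 1)
  rw [Fin.sum_univ_three] at g0 g1 k0 k1
  rw [cr_self] at g0 g1 k0 k1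
  have n01 : cr (eg hn hv 0) (eg hn hv 1) ≠ 0 := tri_par hn hv (by decide)
  have n12 : cr (eg hn hv 1) (eg hn hv 2) ≠ 0 := tri_par hn hv (by decide)
  have e1 : (μ 1 - μ 2) * cr (eg hn hv 0) (eg hn hv 1) = 0 := by
    linear_combination g0 - μ 2 * k0
  have e2 : (μ 2 - μ 0) * cr (eg hn hv 1) (eg hn hv 2) = 0 := by
    linear_combination g1 - μ 0 * k1
  have e3 := sub_eq_zero.1 ((mul_eq_zero.1 e1).resolve_right n01)
  have e4 := sub_eq_zero.1 ((mul_eq_zero.1 e2).resolve_right n12)
  intro i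
  fin_cases i
  · rfl
  · exact e3.trans e4
  · exact e4

/-- Mixed areas in a triangle. -/
theorem tri_BB (hn : 3 ≤ 3) {v : Fin 3 → ℂ} (hv : ConvexIndependent ℝ v) {u u' : Fin 3 → ℂ}
    {μ μ' : Fin 3 → ℝ} (hu : Par hn hv u μ) (hu' : Par hn hv u' μ') :
    BB hn hv u u' * BB hn hv v v = BB hn hv v u * BB hn hv v u' := by
  have c1 := tri_const hn hv hu
  have c2 := tri_const hn hv hu'
  have e1 : ∀ w : Fin 3 → ℂ, BB hn hv w u' = μ' 0 * BB hn hv w v := by
    intro w
    unfold BB
    rw [Finset.mul_sum]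
    refine Finset.sum_congr rfl (fun i _ => ?_)
    rw [hu' i, c2 i, cr_smul_right]
    rfl
  have e2 : BB hn hv v u = μ 0 * BB hn hv v v := by
    unfold BB
    rw [Finset.mul_sum]
    refine Finset.sum_congr rfl (fun i _ => ?_)
    rw [hu i, c1 i, cr_smul_right]
    rfl
  have h0 : 0 ≤ BB hn hv v v := by
    rw [BB_vv]; exact mul_nonneg zero_le_two ENNReal.toReal_nonneg
  have e3 := (mink hn hv hu h0).2
  rw [e1 u, e1 v, e3, e2]
  ring

/-- Triangles: crossing is the product of the measures. -/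
theorem JJ_tri (hn : 3 ≤ 3) {v : Fin 3 → ℂ} (hv : ConvexIndependent ℝ v) {A B : Set (ℂ × ℂ)}
    (hA : IS v A) (hB : IS v B) : JJ v A B = mm v A * mm v B := by
  have h := tri_BB hn hv (par_set hn hv hB.meas hB.inv hB.ch) (par_set hn hv hA.meas hA.inv hA.ch)
  have har := (ar_pos hn hv).ne'
  have hpi := Real.pi_ne_zero
  rw [JJ_eq hn hv hA hB, mm_eq hn hv hA, mm_eq hn hv hB]
  rw [BB_vv] at h
  change BB hn hv (uS v B) (uS v A) * (2 * ar v) = _ at h
  field_simp
  linear_combination 4 * h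

variable {n : ℕ} {v : Fin n → ℂ}

theorem cro_self_lower {A : Set (ℂ × ℂ)} (hA : MeasurableSet A) (hc : Cone A) (x : ℂ) :
    2 * ((π * frac A x) ^ 2 - Real.sin (π * frac A x) ^ 2) ≤ cro A A x := by
  have hmom := (cone_moments (measurableSet_sl hA x) (fun w c h => hc x w c h)
    (α := frac A x) rfl).2
  rw [cro_ms hA hA hc hc, ms_eq hA, ms_eq hA, ms_eq hA]
  nlinarith

theorem sin_sq_lt {t : ℝ} (ht : 0 < t) : Real.sin t ^ 2 < t ^ 2 := by
  exact Real.sin_sq_lt_sq ht.ne'

theorem cro_meas {A : Set (ℂ × ℂ)} (hA : MeasurableSet A) (hc : Cone A) : Measurable (cro A A) := by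
  have h : cro A A = fun x => 16 * (ms A p02 x * ms A p20 x - 2 * (ms A p11 x * ms A p11 x) +
      ms A p20 x * ms A p02 x) := by
    funext x; exact cro_ms hA hA hc hc x
  rw [h]
  have m1 := ms_meas hA p20_meas
  have m2 := ms_meas hA p02_meas
  have m3 := ms_meas hA p11_meas
  exact (((m2.mul m1).sub ((m3.mul m3).const_mul 2)).add (m1.mul m2)).const_mul 16

theorem cro_int {A : Set (ℂ × ℂ)} (hA : MeasurableSet A) (hc : Cone A) :
    IntegrableOn (cro A A) (PP v) := by
  refine intOn_PP (cro_meas hA hc) (C := 16 * (π * π + 2 * (π * π) + π * π)) (fun x => ?_)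
  rw [cro_ms hA hA hc hc]
  have h1 := ms_abs (A := A) (φ := p20) (fun _ h => p20_abs h) x
  have h2 := ms_abs (A := A) (φ := p02) (fun _ h => p02_abs h) x
  have h3 := ms_abs (A := A) (φ := p11) (fun _ h => p11_abs h) x
  have hpi := Real.pi_pos
  rw [abs_mul, abs_of_pos (by norm_num : (0 : ℝ) < 16)]
  refine mul_le_mul_of_nonneg_left ?_ (by norm_num)
  refine (abs_add_le _ _).trans (add_le_add ((abs_sub _ _).trans (add_le_add ?_ ?_)) ?_)
  · rw [abs_mul]; exact mul_le_mul h2 h1 (abs_nonneg _) hpi.le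
  · rw [abs_mul, abs_of_pos (by norm_num : (0 : ℝ) < 2), abs_mul]
    exact mul_le_mul_of_nonneg_left (mul_le_mul h3 h3 (abs_nonneg _) hpi.le) (by norm_num)
  · rw [abs_mul]; exact mul_le_mul h1 h2 (abs_nonneg _) hpi.le

/-- Self-crossing of a non-null set is positive. -/
theorem JJ_self_pos (hn : 3 ≤ n) (hv : ConvexIndependent ℝ v) {A : Set (ℂ × ℂ)}
    (hA : MeasurableSet A) (hc : Cone A) (hm : 0 < mm v A) : 0 < JJ v A A := by
  have har := ar_pos hn hv
  have hpi := Real.pi_pos
  unfold JJ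
  refine div_pos ?_ (by positivity)
  by_contra hcon
  have h0 : ∫ x in PP v, cro A A x = 0 :=
    le_antisymm (not_lt.1 hcon) (integral_nonneg (fun x => cro_nonneg A A x))
  have h1 := (setIntegral_eq_zero_iff_of_nonneg_ae
    (Eventually.of_forall (fun x => cro_nonneg A A x)) (cro_int (v := v) hA hc)).1 h0
  have h2 : ∀ᵐ x ∂(volume.restrict (PP v)), frac A x = 0 := by
    filter_upwards [h1] with x hx
    have h3 := cro_self_lower hA hc x
    rw [hx] at h3
    simp only [Pi.zero_apply] at h3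
    by_contra h4
    have h5 : 0 < frac A x := lt_of_le_of_ne (frac_nonneg A x) (Ne.symm h4)
    have h6 := sin_sq_lt (mul_pos hpi h5)
    linarith
  have h3 : ∫ x in PP v, frac A x = 0 := by
    rw [integral_congr_ae h2, integral_zero]
  unfold mm at hm
  rw [h3, zero_div] at hm
  exact lt_irrefl _ hm

theorem JJ_pos (hn : 3 ≤ n) (hv : ConvexIndependent ℝ v) {A B : Set (ℂ × ℂ)} (hA : IS v A)
    (hB : IS v B) (hmA : 0 < mm v A) (hmB : 0 < mm v B) : 0 < JJ v A B := by
  have h1 := JJ_self_pos hn hv hA.meas hA.cone hmA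
  have h2 := JJ_self_pos hn hv hB.meas hB.cone hmB
  have h3 := JJ_rcs hn hv hA hB
  have h4 := mul_pos h1 h2
  have h5 := JJ_nonneg v A B
  rcases eq_or_lt_of_le h5 with h | h
  · rw [← h] at h3; nlinarith
  · exact h

/-- The relative measure. -/
theorem mm_vol (hn : 3 ≤ n) (hv : ConvexIndependent ℝ v) {A : Set (ℂ × ℂ)}
    (hA : MeasurableSet A) :
    mm v A = (volume (A ∩ (PP v ×ˢ BV))).toReal / (volume (PP v ×ˢ BV)).toReal := by
  have hpi := Real.pi_pos
  have har := ar_pos hn hv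
  have h1 : (volume (PP v ×ˢ BV)).toReal = ar v * π := by
    rw [Measure.volume_eq_prod, Measure.prod_prod, ENNReal.toReal_mul, vol_BV]
    rfl
  have hm : MeasurableSet (A ∩ (PP v ×ˢ BV)) :=
    hA.inter (isOpen_PP.measurableSet.prod measurableSet_ball)
  have h2 : (volume (A ∩ (PP v ×ˢ BV))).toReal = π * ∫ x in PP v, frac A x := by
    rw [← integral_const_mul, Measure.volume_eq_prod, Measure.prod_apply hm]
    have h3 : ∀ x, volume (Prod.mk x ⁻¹' (A ∩ (PP v ×ˢ BV))) =
        (PP v).indicator (fun x => volume (sl A x ∩ BV)) x := by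
      intro x
      by_cases hx : x ∈ PP v
      · rw [indicator_of_mem hx]
        congr 1
        ext w
        simp only [mem_preimage, mem_inter_iff, mem_prod, sl, mem_ofPred_eq]
        tauto
      · rw [indicator_of_notMem hx]
        have : Prod.mk x ⁻¹' (A ∩ (PP v ×ˢ BV)) = ∅ := by
          ext w
          simp only [mem_preimage, mem_inter_iff, mem_prod, mem_empty_iff_false, iff_false]
          tauto
        rw [this, measure_empty]
    simp_rw [h3]
    rw [lintegral_indicator isOpen_PP.measurableSet, ← integral_toReal]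
    · apply integral_congr_ae
      refine Eventually.of_forall (fun x => ?_)
      simp only [frac]
      field_simp
    · have h1 : MeasurableSet {p : ℂ × ℂ | p ∈ A ∧ p.2 ∈ BV} :=
        hA.inter (measurableSet_ball.preimage measurable_snd)
      exact (measurable_measure_prodMk_left (ν := (volume : Measure ℂ)) h1).aemeasurable
    · exact Eventually.of_forall (fun x =>
        (measure_mono inter_subset_right).trans_lt measure_ball_lt_top)
  rw [h1, h2]
  unfold mm
  field_simp

end Pool.Agent.Lib.BilX
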